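import Pool.Agent.H774.CR.Three

/-!
# Deformations are invariant, except in dimension three
-/

set_option autoImplicit false
set_option linter.unusedSectionVars false

open Finset

namespace Pool.Agent.H774.CR

open Pool.Agent.Y387.SF Pool.Agent.Y387.MD Pool.Agent.H774.IS

section Group

variable {V : Type*} [NormedAddCommGroup V] [InnerProductSpace ℂ V] [FiniteDimensional ℂ V]
  {Γ : Type*} [AddCommGroup Γ] [Fintype Γ] [DecidableEq Γ] {x : Γ → V} {d : ℕ}
  {U : Γ → V ≃ₗᵢ[ℂ] V}

/-- **The character of an isotypic deformation is trivial.** -/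
theorem isotypic1 (h : Cov d x U) (hd3 : d ≠ 3) {z : EuclideanSpace ℂ (Γ × Γ)}
    (hz : z ∈ WZ (gm x) ((d : ℂ) / (d + 1))) (hz0 : z ≠ 0) {θ : AddChar Γ ℂ}
    (hθ : ∀ g i j, z (g + i, g + j) = θ g * z (i, j)) (g : Γ) : θ g = 1 := by
  have hc3 := isotypic h hz hz0 hθ
  obtain ⟨Y, k, η, hY0, hk, hanti, hη, hηY⟩ := iso_data h hz hz0 hθ
  by_contra hne
  have hk0 : k ≠ 0 := by
    rintro rfl
    apply hne
    rw [hk, om_symm h g 0, om_zero, inv_one]
  have hd := three h hY0 hk0 (fun g => by rw [← hk]; exact hc3 g) hanti hη hηY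
  have hd1 := h.pos
  have hpow : θ g ^ (d ^ 2) = 1 := by
    rw [← h.card, ← AddChar.map_nsmul_eq_pow, card_nsmul_eq_zero, AddChar.map_zero_eq_one]
  have h3 := hc3 g
  apply hne
  interval_cases d
  · simpa using hpow
  · have h4 : θ g ^ 4 = 1 := by simpa using hpow
    linear_combination h4 - θ g * h3
  · exact absurd rfl hd3

/-- **All deformations are invariant.** -/
theorem inv_all (h : Cov d x U) (hd3 : d ≠ 3) {z : EuclideanSpace ℂ (Γ × Γ)}
    (hz : z ∈ WZ (gm x) ((d : ℂ) / (d + 1))) (g i j : Γ) :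
    z (g + i, g + j) = z (i, j) := by
  set w : AddChar Γ ℂ → EuclideanSpace ℂ (Γ × Γ) :=
    fun θ => ∑ m, θ (-m) • Pm (Equiv.addLeft m) z with hw
  have hwv : ∀ θ i j, w θ (i, j) = ∑ m, θ (-m) * z (m + i, m + j) := by
    intro θ i j
    rw [hw]
    simp only [WithLp.ofLp_sum, Finset.sum_apply, PiLp.smul_apply, smul_eq_mul]
    rfl
  have hwW : ∀ θ, w θ ∈ WZ (gm x) ((d : ℂ) / (d + 1)) := by
    intro θ
    exact Submodule.sum_mem _ fun m _ => Submodule.smul_mem _ _ (Pm_mem h.etf (h.ind m) z hz)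
  have hwθ : ∀ θ g i j, w θ (g + i, g + j) = θ g * w θ (i, j) := by
    intro θ g i j
    rw [hwv, hwv, Finset.mul_sum]
    refine Fintype.sum_equiv (Equiv.addRight g) _ _ fun m => ?_
    rw [Equiv.coe_addRight]
    simp only
    rw [← add_assoc, ← add_assoc, ← mul_assoc, ← AddChar.map_add_eq_mul]
    congr 2
    abel
  have hw3 : ∀ θ g i j, w θ (g + i, g + j) = w θ (i, j) := by
    intro θ g i j
    by_cases h0 : w θ = 0
    · rw [h0]
      rfl
    · rw [hwθ, isotypic1 h hd3 (hwW θ) h0 (hwθ θ) g, one_mul]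
  have hsum : ∀ i j, ∑ θ, w θ (i, j) = (Fintype.card Γ : ℂ) * z (i, j) := by
    intro i j
    simp_rw [hwv]
    rw [Finset.sum_comm]
    have h1 : ∀ m : Γ, ∑ θ : AddChar Γ ℂ, θ (-m) * z (m + i, m + j) =
        if m = 0 then (Fintype.card Γ : ℂ) * z (m + i, m + j) else 0 := by
      intro m
      rw [← Finset.sum_mul, AddChar.sum_apply_eq_ite]
      simp only [neg_eq_zero]
      split_ifs <;> simp
    simp_rw [h1]
    rw [Finset.sum_ite_eq' Finset.univ (0 : Γ), if_pos (Finset.mem_univ _), zero_add, zero_add]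
  have hc : (Fintype.card Γ : ℂ) ≠ 0 := by
    rw [h.card]
    have := h.pos
    have : d ≠ 0 := by omega
    exact_mod_cast pow_ne_zero 2 this
  apply mul_left_cancel₀ hc
  rw [← hsum, ← hsum]
  exact Finset.sum_congr rfl fun θ _ => hw3 θ g i j

end Group

section Perm

variable {V : Type*} [NormedAddCommGroup V] [InnerProductSpace ℂ V] [FiniteDimensional ℂ V]
  {ι : Type*} [Fintype ι] [DecidableEq ι] {x : ι → V} {d : ℕ}

/-- **Deformations are invariant under an abelian transitive group of symmetries.** -/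
theorem perm_inv (hx : IsEtf d x) (hd : 1 ≤ d) (hd3 : d ≠ 3) (hcard : Fintype.card ι = d ^ 2)
    (hV : Module.finrank ℂ V = d) (G : Subgroup (Equiv.Perm ι))
    (hcomm : ∀ g ∈ G, ∀ k ∈ G, g * k = k * g) (htr : ∀ i j, ∃ g ∈ G, g i = j)
    (hsym : ∀ g ∈ G, ∃ U : V ≃ₗᵢ[ℂ] V, Ind x U g) {z : EuclideanSpace ℂ (ι × ι)}
    (hz : z ∈ WZ (gm x) ((d : ℂ) / (d + 1))) {g : Equiv.Perm ι} (hg : g ∈ G) (i j : ι) :
    z (g i, g j) = z (i, j) := by
  classical
  have hne : Nonempty ι := by
    rw [← Fintype.card_pos_iff, hcard]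
    positivity
  obtain ⟨i₀⟩ := hne
  let _ : CommGroup G := { (inferInstance : Group G) with
    mul_comm := fun a b => Subtype.ext (hcomm a a.2 b b.2) }
  have : Finite G := inferInstance
  let _ : Fintype (Additive G) := Fintype.ofFinite _
  set f : Additive G → ι := fun a => (a.toMul : Equiv.Perm ι) i₀ with hf
  have hfadd : ∀ a b : Additive G, f (a + b) = (a.toMul : Equiv.Perm ι) (f b) := fun a b => rfl
  have hfb : Function.Bijective f := by
    constructor
    · intro a b hab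
      have h1 : (a.toMul : Equiv.Perm ι) = (b.toMul : Equiv.Perm ι) := by
        ext k
        obtain ⟨c, hc, rfl⟩ := htr i₀ k
        have h2 := hcomm _ a.toMul.2 _ hc
        have h3 := hcomm _ b.toMul.2 _ hc
        have h4 : (a.toMul : Equiv.Perm ι) (c i₀) = c ((a.toMul : Equiv.Perm ι) i₀) :=
          congrArg (fun π : Equiv.Perm ι => π i₀) h2
        have h5 : (b.toMul : Equiv.Perm ι) (c i₀) = c ((b.toMul : Equiv.Perm ι) i₀) :=
          congrArg (fun π : Equiv.Perm ι => π i₀) h3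
        rw [h4, h5]
        exact congrArg c hab
      exact Additive.toMul.injective (Subtype.ext h1)
    · intro k
      obtain ⟨c, hc, hck⟩ := htr i₀ k
      exact ⟨Additive.ofMul ⟨c, hc⟩, hck⟩
  set e : Additive G ≃ ι := Equiv.ofBijective f hfb with he
  have hef : ∀ a, e a = f a := fun a => rfl
  choose W hW using fun a : Additive G => hsym a.toMul a.toMul.2
  have hcov : Cov d (fun a => x (e a)) W := by
    refine ⟨⟨fun a => hx.nrm _, fun a b hab => hx.ang _ _ fun h0 => hab (e.injective h0)⟩, hd, ?_,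
      hV, fun a b => ?_⟩
    · rw [Fintype.card_congr e, hcard]
    · obtain ⟨c, hc⟩ := hW a (e b)
      refine ⟨c, ?_⟩
      rw [hc]
      rfl
  set z' : EuclideanSpace ℂ (Additive G × Additive G) :=
    WithLp.toLp 2 (fun q => z (e q.1, e q.2)) with hz'
  have hz'W : z' ∈ WZ (gm fun a => x (e a)) ((d : ℂ) / (d + 1)) := by
    obtain ⟨hz1, hz2⟩ := hz
    refine ⟨fun a b => ?_, fun a b => hz2 _ _⟩
    have h1 := hz1 (e a) (e b)
    change _ = (d : ℂ) / (d + 1) * z (e a, e b)
    rw [← h1]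
    exact Fintype.sum_equiv e _ _ fun c => rfl
  obtain ⟨a, rfl⟩ := e.surjective i
  obtain ⟨b, rfl⟩ := e.surjective j
  exact inv_all hcov hd3 hz'W (Additive.ofMul ⟨g, hg⟩) a b

end Perm

end Pool.Agent.H774.CR
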