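import Pool.Agent.H774.CR.Row

/-!
# Deformations are invariant under the cubes
-/

set_option autoImplicit false
set_option linter.unusedSectionVars false

open Finset

namespace Pool.Agent.H774.CR

open Pool.Agent.Y387.SF Pool.Agent.Y387.MD Pool.Agent.H774.IS

variable {V : Type*} [NormedAddCommGroup V] [InnerProductSpace ℂ V] [FiniteDimensional ℂ V]
  {Γ : Type*} [AddCommGroup Γ] [Fintype Γ] {x : Γ → V} {d : ℕ} {U : Γ → V ≃ₗᵢ[ℂ] V}

/-- a nonzero vector is orthogonal to less than half of the vectors of the frame -/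
theorem half' (h : Cov d x U) {Y : V} (hY : Y ≠ 0) {K : Finset Γ}
    (hK : ∀ g, inner ℂ (x g) Y ≠ 0 → g ∈ K) : (d : ℝ) * (d + 1) ≤ 2 * K.card := by
  classical
  have hd : (1 : ℝ) ≤ d := by exact_mod_cast h.pos
  have hd1 : (0 : ℝ) < (d : ℝ) + 1 := by linarith
  set q : Γ → ℝ := fun g => ‖(inner ℂ (x g) Y : ℂ)‖ ^ 2 with hq
  have hqc : ∀ g, inner ℂ Y (x g) * inner ℂ (x g) Y = ((q g : ℝ) : ℂ) := by
    intro g
    rw [← inner_conj_symm Y (x g), mul_comm, Complex.mul_conj, Complex.normSq_eq_norm_sq]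
  have hYY : (inner ℂ Y Y : ℂ) = ((‖Y‖ ^ 2 : ℝ) : ℂ) := by
    rw [inner_self_eq_norm_sq_to_K]
    push_cast
    rfl
  have h1 : ∑ g, q g = d * ‖Y‖ ^ 2 := by
    have h2 := frame_inner h.etf h.pos h.card h.rk Y Y
    simp_rw [hqc] at h2
    rw [hYY] at h2
    exact_mod_cast h2
  have h2 : ∑ g, q g ^ 2 = (d / (d + 1)) * (2 * (‖Y‖ ^ 2) ^ 2) := by
    have h3 := design h.etf h.pos h.card h.rk Y Y Y Y
    have h4 : ∀ g, inner ℂ Y (x g) * inner ℂ Y (x g) * (inner ℂ (x g) Y * inner ℂ (x g) Y) =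
        (((q g) ^ 2 : ℝ) : ℂ) := by
      intro g
      rw [Complex.ofReal_pow, ← hqc]
      ring
    simp_rw [h4] at h3
    rw [hYY] at h3
    have h5 : ((∑ g, q g ^ 2 : ℝ) : ℂ) = (((d / (d + 1)) * (2 * (‖Y‖ ^ 2) ^ 2) : ℝ) : ℂ) := by
      rw [Complex.ofReal_sum, h3]
      push_cast
      ring
    exact_mod_cast h5
  have h3 : ∑ g, q g = ∑ g ∈ K, q g := by
    symm
    apply Finset.sum_subset (Finset.subset_univ _)
    intro g _ hg
    have h4 : inner ℂ (x g) Y = 0 := by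
      by_contra h5
      exact hg (hK g h5)
    rw [hq]
    simp [h4]
  have h4 : (∑ g ∈ K, q g) ^ 2 ≤ K.card * ∑ g ∈ K, q g ^ 2 := sq_sum_le_card_mul_sum_sq
  have h5 : ∑ g ∈ K, q g ^ 2 ≤ ∑ g, q g ^ 2 :=
    Finset.sum_le_sum_of_subset_of_nonneg (Finset.subset_univ _) fun g _ _ => sq_nonneg _
  have h6 : (d * ‖Y‖ ^ 2) ^ 2 ≤ K.card * ((d / (d + 1)) * (2 * (‖Y‖ ^ 2) ^ 2)) := by
    rw [← h1, h3, ← h2]
    exact h4.trans (mul_le_mul_of_nonneg_left h5 (Nat.cast_nonneg _))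
  have hYn : 0 < ‖Y‖ ^ 2 := by
    have := norm_pos_iff.2 hY
    positivity
  have h7 : (d : ℝ) * (d + 1) ≤ 2 * K.card := by
    have h8 : (d : ℝ) * (d + 1) * (d * (‖Y‖ ^ 2) ^ 2) ≤ 2 * K.card * (d * (‖Y‖ ^ 2) ^ 2) := by
      have h9 := mul_le_mul_of_nonneg_right h6 hd1.le
      have e1 : (K.card * ((d / (d + 1)) * (2 * (‖Y‖ ^ 2) ^ 2))) * ((d : ℝ) + 1) =
          2 * K.card * (d * (‖Y‖ ^ 2) ^ 2) := by
        field_simp
      rw [e1] at h9
      calc _ = (d * ‖Y‖ ^ 2) ^ 2 * ((d : ℝ) + 1) := by ring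
        _ ≤ _ := h9
    exact le_of_mul_le_mul_right h8 (by positivity)
  exact h7

theorem half (h : Cov d x U) {Y : V} (hY : Y ≠ 0) {K : Finset Γ}
    (hK : ∀ g, inner ℂ (x g) Y ≠ 0 → g ∈ K) : Fintype.card Γ < 2 * K.card := by
  have h7 := half' h hY hK
  have hd : (1 : ℝ) ≤ d := by exact_mod_cast h.pos
  have h8 : (Fintype.card Γ : ℝ) < 2 * K.card := by
    rw [h.card]
    push_cast
    nlinarith
  exact_mod_cast h8

variable [DecidableEq Γ]

/-- the data of an isotypic deformation -/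
theorem iso_data (h : Cov d x U) {z : EuclideanSpace ℂ (Γ × Γ)}
    (hz : z ∈ WZ (gm x) ((d : ℂ) / (d + 1))) (hz0 : z ≠ 0) {θ : AddChar Γ ℂ}
    (hθ : ∀ g i j, z (g + i, g + j) = θ g * z (i, j)) :
    ∃ (Y : V) (k : Γ) (η : ℂ), Y ≠ 0 ∧ (∀ g, θ g = om h k g) ∧
      (∀ g, zz x Y g = -(om h k g * zz x Y (-g))) ∧ (starRingEnd ℂ) η * η = 1 ∧
      U k Y = η • Y := by
  have hd0 : (d : ℂ) ≠ 0 := by
    have := h.pos
    have : d ≠ 0 := by omega
    exact_mod_cast this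
  have hd1 : (d : ℂ) + 1 ≠ 0 := by exact_mod_cast d.succ_ne_zero
  have hlam : (d : ℂ) / (d + 1) ≠ 0 := div_ne_zero hd0 hd1
  obtain ⟨hz1, hz2⟩ := hz
  set Y' : V := ∑ k, (gm x k 0 * z (0, k)) • x k -
    (∑ k, (gm x 0 k * gm x k 0) * z (0, k)) • x 0 with hY'
  set Y : V := ((d : ℂ) / (d + 1))⁻¹ • Y' with hY
  have hrow : ∀ j, z (0, j) = zz x Y j := by
    intro j
    have h1 : (d : ℂ) / (d + 1) * z (0, j) = gm x 0 j * inner ℂ (x j) Y' := by
      rw [← hz1, hY', inner_sub_right, inner_sum, inner_smul_right]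
      simp_rw [inner_smul_right]
      have e1 : ∀ k, ff (gm x) 0 j k * z (0, k) = gm x 0 j * (gm x k 0 * z (0, k) *
          gm x j k) - gm x 0 j * gm x j 0 * ((gm x 0 k * gm x k 0) * z (0, k)) := by
        intro k
        unfold ff
        ring
      simp_rw [e1]
      rw [Finset.sum_sub_distrib, ← Finset.mul_sum, ← Finset.mul_sum]
      unfold gm
      ring
    unfold zz
    rw [hY, inner_smul_right]
    unfold gm at h1
    have h2 : z (0, j) = ((d : ℂ) / (d + 1))⁻¹ * ((d : ℂ) / (d + 1) * z (0, j)) := by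
      rw [inv_mul_cancel_left₀ hlam]
    rw [h2, h1]
    ring
  have hY0 : Y ≠ 0 := by
    intro h0
    apply hz0
    ext q
    have h1 := hθ q.1 0 (q.2 - q.1)
    rw [add_zero, add_sub_cancel, hrow, h0] at h1
    unfold zz at h1
    rw [inner_zero_right, mul_zero, mul_zero] at h1
    exact h1
  obtain ⟨k, hk⟩ := chr_surj h θ
  have hanti : ∀ g, zz x Y g = -(om h k g * zz x Y (-g)) := by
    intro g
    rw [← hrow, ← hrow, ← hk]
    have h1 := hθ g 0 (-g)
    rw [add_zero, add_neg_cancel] at h1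
    rw [← h1, hz2 g 0]
  obtain ⟨η, hη, hηY⟩ := eigen h hY0 hanti
  exact ⟨Y, k, η, hY0, hk, hanti, hη, hηY⟩

/-- **The character of an isotypic deformation has order dividing three.** -/
theorem isotypic (h : Cov d x U) {z : EuclideanSpace ℂ (Γ × Γ)}
    (hz : z ∈ WZ (gm x) ((d : ℂ) / (d + 1))) (hz0 : z ≠ 0) {θ : AddChar Γ ℂ}
    (hθ : ∀ g i j, z (g + i, g + j) = θ g * z (i, j)) (g : Γ) : θ g ^ 3 = 1 := by
  obtain ⟨Y, k, η, hY0, hk, hanti, hη, hηY⟩ := iso_data h hz hz0 hθ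
  classical
  set K : Finset Γ := univ.filter fun g => θ g ^ 3 = 1 with hK
  have hcard := half h hY0 (K := K) (fun g hg => by
    rw [hK, Finset.mem_filter]
    refine ⟨Finset.mem_univ _, ?_⟩
    rw [hk]
    exact cube h hanti hη hηY hg)
  -- more than half of the group
  have hinj : Function.Injective fun m : Γ => g - m := fun a b hab => sub_right_injective hab
  have hne : (K ∩ K.image fun m => g - m).Nonempty := by
    rw [← Finset.card_pos]
    have h1 := Finset.card_union_add_card_inter K (K.image fun m => g - m)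
    rw [Finset.card_image_of_injective _ hinj] at h1
    have h2 : (K ∪ K.image fun m => g - m).card ≤ Fintype.card Γ := Finset.card_le_univ _
    omega
  obtain ⟨m, hm⟩ := hne
  rw [Finset.mem_inter, Finset.mem_image] at hm
  obtain ⟨hm1, m', hm2, rfl⟩ := hm
  rw [hK, Finset.mem_filter] at hm1 hm2
  have h1 : θ g = θ (g - m') * θ m' := by rw [← AddChar.map_add_eq_mul, sub_add_cancel]
  rw [h1, mul_pow, hm1.2, hm2.2, one_mul]

end Pool.Agent.H774.CR
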