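import Pool.Agent.H774.CR.All
import Pool.Agent.H774.IS.First

/-!
# Frames near a symmetric frame
-/

set_option autoImplicit false
set_option linter.unusedSectionVars false

open Finset Filter Topology

namespace Pool.Agent.H774.CR

open Pool.Agent.Y387.SF Pool.Agent.Y387.MD Pool.Agent.H774.IS

variable {V : Type*} [NormedAddCommGroup V] [InnerProductSpace ℂ V] [FiniteDimensional ℂ V]
  {ι : Type*} [Fintype ι] [DecidableEq ι] {x : ι → V} {d : ℕ}

/-- a permutation is a symmetry iff it preserves the triple products -/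
theorem ind_iff (hx : IsEtf d x) (hd : 1 ≤ d) (hcard : Fintype.card ι = d ^ 2)
    (hV : Module.finrank ℂ V = d) (π : Equiv.Perm ι) :
    (∃ U : V ≃ₗᵢ[ℂ] V, Ind x U π) ↔ ∀ i j k, tp x (π i) (π j) (π k) = tp x i j k := by
  constructor
  · rintro ⟨U, hU⟩ i j k
    exact tp_inv hx hU i j k
  · intro h
    obtain ⟨U, hU⟩ := gram_equiv (etf_perm hx π) hx hd hcard hV (fun i j k => (h i j k).symm)
    refine ⟨U, fun k => ?_⟩
    obtain ⟨c, _, hc⟩ := hU k
    exact ⟨c, hc⟩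

/-- **Frames near a frame with an abelian transitive group of symmetries have these
symmetries.** -/
theorem near (hx : IsEtf d x) (hd : 1 ≤ d) (hd3 : d ≠ 3) (hcard : Fintype.card ι = d ^ 2)
    (hV : Module.finrank ℂ V = d) (G : Subgroup (Equiv.Perm ι))
    (hcomm : ∀ g ∈ G, ∀ k ∈ G, g * k = k * g) (htr : ∀ i j, ∃ g ∈ G, g i = j)
    (hsym : ∀ g ∈ G, ∃ U : V ≃ₗᵢ[ℂ] V, Ind x U g) :
    ∃ ε > 0, ∀ y : ι → V, IsEtf d y → (∀ i j k, ‖tp y i j k - tp x i j k‖ < ε) →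
      ∀ g ∈ G, ∃ U : V ≃ₗᵢ[ℂ] V, Ind y U g := by
  have h1 : ∀ g : Equiv.Perm ι, ∃ ε > 0, g ∈ G → ∀ y : ι → V, IsEtf d y →
      (∀ i j k, ‖tp y i j k - tp x i j k‖ < ε) → ∃ U : V ≃ₗᵢ[ℂ] V, Ind y U g := by
    intro g
    by_cases hg : g ∈ G
    · obtain ⟨U, hU⟩ := hsym g hg
      obtain ⟨ε, hε, h2⟩ := near_inv hx hd hcard hV hU
        (fun z hz => perm_inv hx hd hd3 hcard hV G hcomm htr hsym hz hg)
      exact ⟨ε, hε, fun _ y hy hyx => (ind_iff hy hd hcard hV g).2 (h2 y hy hyx)⟩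
    · exact ⟨1, one_pos, fun h => absurd h hg⟩
  choose ε hε h2 using h1
  obtain ⟨g₀, hg₀⟩ := Finite.exists_min ε
  exact ⟨ε g₀, hε g₀, fun y hy hyx g hg =>
    h2 g hg y hy fun i j k => (hyx i j k).trans_le (hg₀ g)⟩

end Pool.Agent.H774.CR
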