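import Pool.Graph.R_pool_sql_team_seeded_1acbe0a2.Y387.MD.Dec
import Mathlib.Analysis.Fourier.FiniteAbelian.PontryaginDuality

/-!
# The commutator pairing of an abelian regular group of symmetries
-/

set_option autoImplicit false
set_option linter.unusedSectionVars false

open Finset

namespace Pool.Agent.H774.CR

open Pool.Agent.Y387.SF Pool.Agent.Y387.MD

variable {V : Type*} [NormedAddCommGroup V] [InnerProductSpace ℂ V] [FiniteDimensional ℂ V]
  {Γ : Type*} [AddCommGroup Γ] [Fintype Γ] {x : Γ → V} {d : ℕ}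

theorem ccn {c : ℂ} (hc : ‖c‖ = 1) : (starRingEnd ℂ) c * c = 1 := by
  rw [mul_comm, Complex.mul_conj, Complex.normSq_eq_norm_sq, hc]
  simp

/-- the data: a maximal equiangular tight frame indexed by an abelian group whose translations are
induced by unitary transformations -/
structure Cov (d : ℕ) (x : Γ → V) (U : Γ → V ≃ₗᵢ[ℂ] V) : Prop where
  etf : IsEtf d x
  pos : 1 ≤ d
  card : Fintype.card Γ = d ^ 2
  rk : Module.finrank ℂ V = d
  ind : ∀ g, Ind x (U g) (Equiv.addLeft g)

variable {U : Γ → V ≃ₗᵢ[ℂ] V}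

/-- a unitary transformation inducing a translation agrees with the given one up to a phase -/
theorem Cov.uniq (h : Cov d x U) {W : V ≃ₗᵢ[ℂ] V} {g : Γ} (hW : Ind x W (Equiv.addLeft g)) :
    ∃ c : ℂ, ‖c‖ = 1 ∧ ∀ v, W v = c • U g v := by
  have h1 : Ind x ((U g)⁻¹ * W) ((Equiv.addLeft g)⁻¹ * Equiv.addLeft g) :=
    ((h.ind g).inv h.etf).mul hW
  rw [inv_mul_cancel] at h1
  obtain ⟨c, hc, hv⟩ := fix_all h.etf h.pos h.card h.rk h1
  refine ⟨c, hc, fun v => ?_⟩
  have h2 : U g ((U g)⁻¹ (W v)) = W v := (U g).apply_symm_apply _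
  have h3 : (U g)⁻¹ (W v) = c • v := hv v
  rw [← h2, h3, map_smul]

theorem addLeft_mul (g k : Γ) : (Equiv.addLeft g * Equiv.addLeft k : Equiv.Perm Γ) =
    Equiv.addLeft (g + k) := by
  ext a
  simp

theorem Cov.add (h : Cov d x U) (g k : Γ) :
    ∃ c : ℂ, ‖c‖ = 1 ∧ ∀ v, U (g + k) v = c • U g (U k v) := by
  have h1 : Ind x (U g * U k) (Equiv.addLeft (g + k)) := by
    rw [← addLeft_mul]
    exact (h.ind g).mul (h.ind k)
  obtain ⟨c, hc, hv⟩ := h.uniq h1
  refine ⟨(starRingEnd ℂ) c, by rw [RCLike.norm_conj, hc], fun v => ?_⟩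
  have h2 : U g (U k v) = c • U (g + k) v := hv v
  rw [h2, smul_smul, ccn hc, one_smul]

theorem Cov.comm (h : Cov d x U) (g k : Γ) :
    ∃ c : ℂ, ‖c‖ = 1 ∧ ∀ v, U g (U k v) = c • U k (U g v) := by
  obtain ⟨a, ha, h1⟩ := h.add g k
  obtain ⟨b, hb, h2⟩ := h.add k g
  refine ⟨(starRingEnd ℂ) a * b, by rw [norm_mul, RCLike.norm_conj, ha, hb, one_mul],
    fun v => ?_⟩
  rw [mul_smul, ← h2, add_comm k g, h1, smul_smul, ccn ha, one_smul]

/-- the commutator pairing -/
noncomputable def om (h : Cov d x U) (g k : Γ) : ℂ := (h.comm g k).choose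

theorem om_norm (h : Cov d x U) (g k : Γ) : ‖om h g k‖ = 1 := (h.comm g k).choose_spec.1

theorem om_spec (h : Cov d x U) (g k : Γ) (v : V) : U g (U k v) = om h g k • U k (U g v) :=
  (h.comm g k).choose_spec.2 v

theorem x_ne (h : Cov d x U) (g : Γ) : x g ≠ 0 := by
  intro h0
  have h1 := h.etf.nrm g
  rw [h0, norm_zero] at h1
  exact zero_ne_one h1

theorem om_uniq (h : Cov d x U) {g k : Γ} {a : ℂ} (ha : ∀ v, U g (U k v) = a • U k (U g v)) :
    om h g k = a := by
  have h1 := om_spec h g k (x 0)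
  rw [ha] at h1
  have h2 : U k (U g (x 0)) ≠ 0 := by
    intro h0
    apply x_ne h 0
    have h3 : U g (x 0) = 0 := (U k).map_eq_zero_iff.1 h0
    exact (U g).map_eq_zero_iff.1 h3
  exact (smul_left_injective ℂ h2 h1).symm

theorem om_self (h : Cov d x U) (g : Γ) : om h g g = 1 :=
  om_uniq h fun v => by rw [one_smul]

theorem om_ne (h : Cov d x U) (g k : Γ) : om h g k ≠ 0 := by
  intro h0
  have h1 := om_norm h g k
  rw [h0, norm_zero] at h1
  exact zero_ne_one h1

theorem om_symm (h : Cov d x U) (g k : Γ) : om h k g = (om h g k)⁻¹ := by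
  apply om_uniq h
  intro v
  rw [om_spec h g k, smul_smul, inv_mul_cancel₀ (om_ne h g k), one_smul]

theorem om_add (h : Cov d x U) (g k l : Γ) : om h g (k + l) = om h g k * om h g l := by
  obtain ⟨c, hc, h1⟩ := h.add k l
  apply om_uniq h
  intro v
  rw [h1, map_smul, om_spec h g k, om_spec h g l, h1, map_smul, smul_smul, smul_smul, smul_smul]
  congr 1
  ring

theorem om_zero (h : Cov d x U) (g : Γ) : om h g 0 = 1 := by
  have h1 := om_add h g 0 0
  rw [add_zero] at h1
  have h2 : om h g 0 * (om h g 0 - 1) = 0 := by linear_combination -h1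
  exact sub_eq_zero.1 ((mul_eq_zero.1 h2).resolve_left (om_ne h g 0))

theorem om_neg (h : Cov d x U) (g k : Γ) : om h g (-k) = (om h g k)⁻¹ := by
  have h1 := om_add h g k (-k)
  rw [add_neg_cancel, om_zero] at h1
  exact eq_inv_of_mul_eq_one_right h1.symm

theorem om_add' (h : Cov d x U) (g k l : Γ) : om h (g + k) l = om h g l * om h k l := by
  rw [om_symm h l (g + k), om_add, mul_inv, ← om_symm, ← om_symm]

theorem om_neg' (h : Cov d x U) (g k : Γ) : om h (-g) k = (om h g k)⁻¹ := by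
  rw [om_symm h k (-g), om_neg, om_symm h k g]

/-- the pairing is nondegenerate -/
theorem om_nondeg (h : Cov d x U) {m : Γ} (hm : ∀ g, om h g m = 1) : m = 0 := by
  obtain ⟨c, hc⟩ := commutant h.etf h.pos h.card h.rk ((U m).toLinearEquiv : V →ₗ[ℂ] V) 0
    (fun k => by
      obtain ⟨c, hc⟩ := h.ind k 0
      refine ⟨U k, c, ?_, fun v => ?_⟩
      · rw [hc]
        simp
      · change U m (U k v) = U k (U m v)
        rw [om_spec h m k, om_symm h k m, hm, inv_one, one_smul])
  obtain ⟨c', hc'⟩ := h.ind m 0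
  have e0 : (Equiv.addLeft m) 0 = m := by simp
  rw [e0] at hc'
  have h1 : U m (x 0) = c • x 0 := hc (x 0)
  have h2 := ind_norm h.etf hc'
  have h3 : c' ≠ 0 := by
    rintro rfl
    simp at h2
  apply h.etf.line h.pos (c := c'⁻¹ * c)
  rw [mul_smul, ← h1, hc', smul_smul, inv_mul_cancel₀ h3, one_smul]

/-- the character belonging to an element -/
noncomputable def chr (h : Cov d x U) (k : Γ) : AddChar Γ ℂ where
  toFun := om h k
  map_zero_eq_one' := om_zero h k
  map_add_eq_mul' := om_add h k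

theorem chr_inj (h : Cov d x U) : Function.Injective (chr h) := by
  intro k l hkl
  have h1 : ∀ g, om h k g = om h l g := fun g => DFunLike.congr_fun hkl g
  have h2 : k - l = 0 := by
    apply om_nondeg h
    intro g
    rw [sub_eq_add_neg, om_add, om_neg, om_symm h k g, om_symm h l g, h1, mul_inv_cancel₀]
    exact inv_ne_zero (om_ne h _ _)
  exact sub_eq_zero.1 h2

/-- **Every character comes from an element.** -/
theorem chr_surj (h : Cov d x U) (θ : AddChar Γ ℂ) : ∃ k, ∀ g, θ g = om h k g := by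
  have h1 : Function.Bijective (chr h) := by
    rw [Fintype.bijective_iff_injective_and_card]
    exact ⟨chr_inj h, AddChar.card_eq.symm⟩
  obtain ⟨k, hk⟩ := h1.2 θ
  refine ⟨k, fun g => ?_⟩
  rw [← hk]
  rfl

end Pool.Agent.H774.CR
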