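import Pool.Agent.H774.CR.Svn

/-!
# Frames with the symmetries of the Weyl-Heisenberg group are orbits
-/

set_option autoImplicit false
set_option linter.unusedSectionVars false

open Finset

namespace Pool.Agent.H774.CR

open Pool.Agent.Y387.SF Pool.Agent.Y387.MD Pool.Agent.H774.IS

/-- the commutator of two symmetries in terms of the triple products -/
theorem comm_tp {V : Type*} [NormedAddCommGroup V] [InnerProductSpace ℂ V]
    {Γ : Type*} [AddCommGroup Γ] {x : Γ → V} {d : ℕ} (hx : IsEtf d x) {A B : V ≃ₗᵢ[ℂ] V} {g k : Γ}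
    (hA : Ind x A (Equiv.addLeft g)) (hB : Ind x B (Equiv.addLeft k)) {ζ : ℂ}
    (hAB : ∀ v, A (B v) = ζ • B (A v)) :
    tp x 0 k (g + k) = ζ * tp x 0 g (g + k) := by
  obtain ⟨a, ha⟩ := hA 0
  obtain ⟨a', ha'⟩ := hA k
  obtain ⟨b, hb⟩ := hB 0
  have e0 : (Equiv.addLeft g) 0 = g := by simp
  have e1 : (Equiv.addLeft k) 0 = k := by simp
  have e2 : (Equiv.addLeft g) k = g + k := rfl
  rw [e0] at ha
  rw [e2] at ha'
  rw [e1] at hb
  have ha1 := ccn (ind_norm hx ha)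
  have hb1 := ccn (ind_norm hx hb)
  have h1 := gm_phase ha ha'
  have h2 : a' * gm x k (g + k) = ζ * (a * gm x 0 g) := by
    have h3 : inner ℂ (B (x 0)) (A (B (x 0))) = ζ * inner ℂ (x 0) (A (x 0)) := by
      rw [hAB, inner_smul_right, B.inner_map_map]
    rw [hb, map_smul, inner_smul_left, inner_smul_right, ha, ha', inner_smul_right,
      inner_smul_right] at h3
    unfold gm
    linear_combination h3 - (a' * inner ℂ (x k) (x (g + k))) * hb1
  unfold tp
  rw [h1]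
  linear_combination ((starRingEnd ℂ) a * gm x g (g + k) * gm x (g + k) 0) * h2 +
    (ζ * gm x 0 g * gm x g (g + k) * gm x (g + k) 0) * ha1

variable (d : ℕ) [NeZero d]

/-- the displacement operators as unitary operators -/
noncomputable def dU (g : ZMod d × ZMod d) :
    EuclideanSpace ℂ (ZMod d) ≃ₗᵢ[ℂ] EuclideanSpace ℂ (ZMod d) := ⟨dop d g, dop_norm d g⟩

theorem dU_apply (g : ZMod d × ZMod d) (v : EuclideanSpace ℂ (ZMod d)) (j : ZMod d) :
    dU d g v j = ZMod.stdAddChar (g.2 * j) * v (j - g.1) := rfl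

theorem dU_ind (ψ : ZMod d → ℂ) (g : ZMod d × ZMod d) : Ind (disp d ψ) (dU d g)
    (Equiv.addLeft g) := by
  intro h
  refine ⟨ZMod.stdAddChar (-(h.2 * g.1)), ?_⟩
  ext j
  rw [dU_apply, PiLp.smul_apply, smul_eq_mul]
  change ZMod.stdAddChar (g.2 * j) * (ZMod.stdAddChar (h.2 * (j - g.1)) * ψ (j - g.1 - h.1)) =
    ZMod.stdAddChar (-(h.2 * g.1)) * (ZMod.stdAddChar ((g + h).2 * j) * ψ (j - (g + h).1))
  rw [← mul_assoc, ← mul_assoc, ← AddChar.map_add_eq_mul, ← AddChar.map_add_eq_mul]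
  have e1 : g.2 * j + h.2 * (j - g.1) = -(h.2 * g.1) + (g + h).2 * j := by
    rw [Prod.snd_add]
    ring
  have e2 : j - g.1 - h.1 = j - (g + h).1 := by
    rw [Prod.fst_add]
    ring
  rw [e1, e2]

/-- the root of unity -/
noncomputable def zt : ℂ := ZMod.stdAddChar (1 : ZMod d)

theorem zt_prim : IsPrimitiveRoot (zt d) d := by
  have h1 := Complex.isPrimitiveRoot_exp d (NeZero.ne d)
  have h2 := ZMod.stdAddChar_coe (N := d) 1
  unfold zt
  simp only [Int.cast_one, mul_one] at h2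
  rw [h2]
  exact h1

theorem chi_pow (j : ZMod d) : ZMod.stdAddChar j = zt d ^ j.val := by
  unfold zt
  rw [← AddChar.map_nsmul_eq_pow, nsmul_eq_mul, mul_one, ZMod.natCast_zmod_val]

theorem dU_comm (v : EuclideanSpace ℂ (ZMod d)) :
    dU d (0, 1) (dU d (1, 0) v) = zt d • dU d (1, 0) (dU d (0, 1) v) := by
  ext j
  rw [dU_apply, dU_apply, PiLp.smul_apply, dU_apply, dU_apply, smul_eq_mul]
  unfold zt
  simp only [zero_mul, one_mul, sub_zero, AddChar.map_zero_eq_one]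
  rw [← mul_assoc, ← AddChar.map_add_eq_mul, add_sub_cancel]

/-- the index of the line of the product -/
theorem tp_wh {ψ : ZMod d → ℂ} (hx : IsEtf d (disp d ψ)) :
    tp (disp d ψ) 0 (1, 0) ((0, 1) + (1, 0)) = zt d * tp (disp d ψ) 0 (0, 1) ((0, 1) + (1, 0)) :=
  comm_tp hx (dU_ind d ψ (0, 1)) (dU_ind d ψ (1, 0)) (dU_comm d)

/-- **Frames with the right symmetries are orbits.** -/
theorem orbit_of {y : ZMod d × ZMod d → EuclideanSpace ℂ (ZMod d)} (hy : IsEtf d y)
    (hsym : ∀ g, ∃ U : EuclideanSpace ℂ (ZMod d) ≃ₗᵢ[ℂ] EuclideanSpace ℂ (ZMod d),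
      Ind y U (Equiv.addLeft g))
    (ht : tp y 0 (1, 0) ((0, 1) + (1, 0)) = zt d * tp y 0 (0, 1) ((0, 1) + (1, 0))) :
    ∃ (ψ : ZMod d → ℂ) (T : EuclideanSpace ℂ (ZMod d) ≃ₗᵢ[ℂ] EuclideanSpace ℂ (ZMod d)),
      ∀ k, ∃ c : ℂ, ‖c‖ = 1 ∧ T (y k) = c • disp d ψ k := by
  have hd0 : d ≠ 0 := NeZero.ne d
  have hd : 1 ≤ d := by omega
  have hV : Module.finrank ℂ (EuclideanSpace ℂ (ZMod d)) = d := by
    rw [finrank_euclideanSpace, ZMod.card]
  have hcard : Fintype.card (ZMod d × ZMod d) = d ^ 2 := by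
    rw [Fintype.card_prod, ZMod.card, sq]
  choose W hW using hsym
  have hcov : Cov d y W := ⟨hy, hd, hcard, hV, hW⟩
  obtain ⟨ω, hω, hAB⟩ := hcov.comm (0, 1) (1, 0)
  have h1 := comm_tp hy (hW (0, 1)) (hW (1, 0)) hAB
  have hne : tp y 0 (0, 1) ((0, 1) + (1, 0)) ≠ 0 :=
    mul_ne_zero (mul_ne_zero (hy.ne_zero _ _) (hy.ne_zero _ _)) (hy.ne_zero _ _)
  have hωζ : ω = zt d := mul_right_cancel₀ hne (h1.symm.trans ht)
  rw [hωζ] at hAB
  obtain ⟨e, l, m, hl, hm, hAe, hBe⟩ := svn hV (W (0, 1)) (W (1, 0)) (zt_prim d) hAB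
  set A := W (0, 1) with hA
  set B := W (1, 0) with hB
  set χ : AddChar (ZMod d) ℂ := ZMod.stdAddChar with hχ
  have hχn : ∀ j, ‖χ j‖ = 1 := fun j => χ.norm_apply j
  have hTA : ∀ v j, e.repr (A v) j = l * χ j * e.repr v j := by
    intro v j
    rw [e.repr_apply_apply, e.repr_apply_apply, ← A.inner_map_map (e j) v, hAe, inner_smul_left,
      ← chi_pow, ← mul_assoc, mul_comm (l * χ j), ccn (by rw [norm_mul, hl, hχn, one_mul]), one_mul]
  have hTB : ∀ v j, e.repr (B v) j = m * e.repr v (j - 1) := by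
    intro v j
    rw [e.repr_apply_apply, e.repr_apply_apply, ← B.inner_map_map (e (j - 1)) v, hBe,
      inner_smul_left, sub_add_cancel, ← mul_assoc, mul_comm m, ccn hm, one_mul]
  have hTAn : ∀ (n : ℕ) v j, e.repr ((A ^ n) v) j = l ^ n * χ (n * j) * e.repr v j := by
    intro n
    induction n with
    | zero => intro v j; simp
    | succ n ih =>
      intro v j
      have h1 : (A ^ (n + 1)) v = (A ^ n) (A v) := by rw [pow_succ]; rfl
      have h2 : χ ((n + 1 : ℕ) * j) = χ (n * j) * χ j := by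
        rw [← AddChar.map_add_eq_mul]
        congr 1
        push_cast
        ring
      rw [h1, ih, hTA, h2]
      ring
  have hTBn : ∀ (n : ℕ) v j, e.repr ((B ^ n) v) j = m ^ n * e.repr v (j - n) := by
    intro n
    induction n with
    | zero => intro v j; simp
    | succ n ih =>
      intro v j
      have h1 : (B ^ (n + 1)) v = (B ^ n) (B v) := by rw [pow_succ]; rfl
      have h2 : j - ((n + 1 : ℕ) : ZMod d) = j - n - 1 := by
        push_cast
        ring
      rw [h1, ih, hTB, h2]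
      ring
  refine ⟨fun j => e.repr (y 0) j, e.repr, fun k => ?_⟩
  have hpow : ∀ (n : ℕ) (g : ZMod d × ZMod d), (Equiv.addLeft g : Equiv.Perm (ZMod d × ZMod d)) ^ n =
      Equiv.addLeft (n • g) := by
    intro n g
    induction n with
    | zero => rw [pow_zero, zero_nsmul]; exact (Equiv.ext fun a => (zero_add a).symm)
    | succ n ih => rw [pow_succ, ih, addLeft_mul, succ_nsmul]
  have h2 := ((hW (0, 1)).pow k.2.val).mul ((hW (1, 0)).pow k.1.val)
  rw [hpow, hpow, addLeft_mul] at h2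
  have e3 : k.2.val • ((0, 1) : ZMod d × ZMod d) + k.1.val • ((1, 0) : ZMod d × ZMod d) = k := by
    ext
    · simp
    · simp
  rw [e3] at h2
  obtain ⟨c, hc⟩ := h2 0
  have e4 : (Equiv.addLeft k) 0 = k := by simp
  rw [e4] at hc
  have hc1 := ind_norm hy hc
  have hc0 : c ≠ 0 := by
    rintro rfl
    simp at hc1
  refine ⟨c⁻¹ * (l ^ k.2.val * m ^ k.1.val), ?_, ?_⟩
  · rw [norm_mul, norm_mul, norm_inv, norm_pow, norm_pow, hc1, hl, hm]
    simp
  · have h5 : y k = c⁻¹ • (A ^ k.2.val * B ^ k.1.val) (y 0) := by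
      rw [hc, smul_smul, inv_mul_cancel₀ hc0, one_smul]
    rw [h5, map_smul]
    ext j
    have h6 : (A ^ k.2.val * B ^ k.1.val) (y 0) = (A ^ k.2.val) ((B ^ k.1.val) (y 0)) := rfl
    rw [h6, PiLp.smul_apply, PiLp.smul_apply, hTAn, hTBn, ZMod.natCast_zmod_val,
      ZMod.natCast_zmod_val, smul_eq_mul, smul_eq_mul]
    change _ = c⁻¹ * (l ^ k.2.val * m ^ k.1.val) * (χ (k.2 * j) * e.repr (y 0) (j - k.1))
    ring

end Pool.Agent.H774.CR
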