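import Pool.Agent.H774.CR.Om
import Pool.Agent.H774.IS.Seq

/-!
# The rows of an isotypic deformation
-/

set_option autoImplicit false
set_option linter.unusedSectionVars false

open Finset

namespace Pool.Agent.H774.CR

open Pool.Agent.Y387.SF Pool.Agent.Y387.MD Pool.Agent.H774.IS

variable {V : Type*} [NormedAddCommGroup V] [InnerProductSpace ℂ V] [FiniteDimensional ℂ V]
  {Γ : Type*} [AddCommGroup Γ] [Fintype Γ] {x : Γ → V} {d : ℕ} {U : Γ → V ≃ₗᵢ[ℂ] V}

/-- the sum of the projections with a character -/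
noncomputable def BB (h : Cov d x U) (g : Γ) : V →ₗ[ℂ] V := ∑ k, om h k g • pr (x k)

theorem BB_apply (h : Cov d x U) (g : Γ) (v : V) :
    BB h g v = ∑ k, (om h k g * inner ℂ (x k) v) • x k := by
  unfold BB
  rw [LinearMap.sum_apply]
  refine Finset.sum_congr rfl fun k _ => ?_
  rw [LinearMap.smul_apply, pr_apply, smul_smul]

theorem BB_cov (h : Cov d x U) (g m : Γ) (v : V) :
    BB h g (U m v) = om h m g • U m (BB h g v) := by
  rw [BB_apply, BB_apply, map_sum, Finset.smul_sum]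
  symm
  refine Fintype.sum_equiv (Equiv.addLeft m) _ _ fun k => ?_
  obtain ⟨c, hc⟩ := h.ind m k
  have hc1 := ccn (ind_norm h.etf hc)
  rw [Equiv.coe_addLeft] at hc ⊢
  simp only at hc ⊢
  have h1 : inner ℂ (x k) v = (starRingEnd ℂ) c * inner ℂ (x (m + k)) (U m v) := by
    rw [← (U m).inner_map_map, hc, inner_smul_left]
  rw [map_smul, hc, smul_smul, smul_smul, om_add', h1]
  congr 1
  linear_combination (om h m g * om h k g * inner ℂ (x (m + k)) (U m v)) * hc1

/-- the values of a symmetry on the frame -/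
theorem diag (h : Cov d x U) (g k : Γ) :
    inner ℂ (x k) (U g (x k)) = om h g k * inner ℂ (x 0) (U g (x 0)) := by
  obtain ⟨c, hc⟩ := h.ind k 0
  have e0 : (Equiv.addLeft k) 0 = k := by simp
  rw [e0] at hc
  have hc1 := ccn (ind_norm h.etf hc)
  have h1 : inner ℂ (U k (x 0)) (U g (U k (x 0))) = inner ℂ (x k) (U g (x k)) := by
    rw [hc, map_smul, inner_smul_left, inner_smul_right, ← mul_assoc, hc1, one_mul]
  rw [← h1, om_spec h g k, inner_smul_right, (U k).inner_map_map]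

/-- **The transform of the projections.** -/
theorem BB_eq (h : Cov d x U) (g : Γ) (v : V) :
    U g (BB h g v) = (d * inner ℂ (x 0) (U g (x 0)) : ℂ) • v := by
  classical
  obtain ⟨c, hc⟩ := commutant h.etf h.pos h.card h.rk
    (((U g).toLinearEquiv : V →ₗ[ℂ] V) ∘ₗ BB h g) 0 (fun k => by
      obtain ⟨c, hc⟩ := h.ind k 0
      refine ⟨U k, c, ?_, fun v => ?_⟩
      · rw [hc]
        simp
      · change U g (BB h g (U k v)) = U k (U g (BB h g v))
        rw [BB_cov, map_smul, om_spec h g k, smul_smul, om_symm h g k, inv_mul_cancel₀ (om_ne h _ _),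
          one_smul])
  have hc' : ∀ v, U g (BB h g v) = c • v := hc
  have hd0 : (d : ℂ) ≠ 0 := by
    have := h.pos
    have : d ≠ 0 := by omega
    exact_mod_cast this
  have e1 : ∑ j, inner ℂ (x j) (U g (BB h g (x j))) = (d : ℂ) ^ 2 * c := by
    simp_rw [hc', inner_smul_right, h.etf.inner_self]
    rw [Finset.sum_const, Finset.card_univ, h.card, nsmul_eq_mul]
    push_cast
    ring
  have e2 : ∑ j, inner ℂ (x j) (U g (BB h g (x j))) =
      (d : ℂ) ^ 2 * (d * inner ℂ (x 0) (U g (x 0))) := by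
    have e3 : ∀ j, inner ℂ (x j) (U g (BB h g (x j))) =
        ∑ k, om h k g * (inner ℂ (x k) (x j) * inner ℂ (x j) (U g (x k))) := by
      intro j
      rw [BB_apply, map_sum, inner_sum]
      refine Finset.sum_congr rfl fun k _ => ?_
      rw [map_smul, inner_smul_right]
      ring
    simp_rw [e3]
    rw [Finset.sum_comm]
    have e4 : ∀ k, ∑ j, om h k g * (inner ℂ (x k) (x j) * inner ℂ (x j) (U g (x k))) =
        d * inner ℂ (x 0) (U g (x 0)) := by
      intro k
      rw [← Finset.mul_sum, frame_inner h.etf h.pos h.card h.rk, diag h, om_symm h g k]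
      have := om_ne h g k
      field_simp
    simp_rw [e4]
    rw [Finset.sum_const, Finset.card_univ, h.card, nsmul_eq_mul]
    push_cast
    ring
  have e5 : c = d * inner ℂ (x 0) (U g (x 0)) := by
    have h2 := e1.symm.trans e2
    exact mul_left_cancel₀ (pow_ne_zero 2 hd0) h2
  rw [hc', e5]

/-- the row of an isotypic matrix -/
noncomputable def zz (x : Γ → V) (Y : V) (g : Γ) : ℂ := inner ℂ (x 0) (x g) * inner ℂ (x g) Y

/-- the row in terms of any unitary transformation inducing the translation -/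
theorem zz_eq (h : Cov d x U) (Y : V) {W : V ≃ₗᵢ[ℂ] V} {g : Γ} {c : ℂ} (hW : W (x 0) = c • x g) :
    zz x Y g = inner ℂ (x 0) (W (x 0)) * inner ℂ (W (x 0)) Y := by
  have hc1 := ccn (ind_norm h.etf hW)
  unfold zz
  rw [hW, inner_smul_left, inner_smul_right]
  linear_combination (-(inner ℂ (x 0) (x g) * inner ℂ (x g) Y)) * hc1

/-- **Self-duality of the rows.** -/
theorem zz_dual (h : Cov d x U) (Y : V) (g : Γ) :
    ∑ k, om h k g * zz x Y k = d * zz x Y g := by
  obtain ⟨c, hc⟩ := h.ind g 0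
  have e0 : (Equiv.addLeft g) 0 = g := by simp
  rw [e0] at hc
  have e1 : ∑ k, om h k g * zz x Y k = inner ℂ (x 0) (BB h g Y) := by
    rw [BB_apply, inner_sum]
    refine Finset.sum_congr rfl fun k _ => ?_
    rw [inner_smul_right]
    unfold zz
    ring
  rw [e1, ← (U g).inner_map_map, BB_eq, inner_smul_right, zz_eq h Y hc]
  ring

section Iso

variable {Y : V} {k : Γ}

/-- the reflection -/
theorem refl (h : Cov d x U) (hz : ∀ g, zz x Y g = -(om h k g * zz x Y (-g))) (g : Γ) :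
    zz x Y (k - g) = -zz x Y g := by
  have hd0 : (d : ℂ) ≠ 0 := by
    have := h.pos
    have : d ≠ 0 := by omega
    exact_mod_cast this
  have h1 := zz_dual h Y g
  have h2 := zz_dual h Y (k - g)
  have h3 : ∑ m, om h m g * zz x Y m = -∑ m, om h m (k - g) * zz x Y m := by
    rw [← Finset.sum_neg_distrib]
    refine Fintype.sum_equiv (Equiv.neg Γ) _ _ fun m => ?_
    rw [Equiv.neg_apply, hz m, sub_eq_add_neg, om_add, om_neg, om_neg', om_neg', inv_inv,
      om_symm h m k]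
    ring
  rw [h1, h2] at h3
  have h4 : (d : ℂ) * (zz x Y (k - g) + zz x Y g) = 0 := by linear_combination h3
  have h5 := (mul_eq_zero.1 h4).resolve_left hd0
  linear_combination h5

theorem trans (h : Cov d x U) (hz : ∀ g, zz x Y g = -(om h k g * zz x Y (-g))) (g : Γ) :
    zz x Y (g - k) = om h k g * zz x Y g := by
  have h1 := refl h hz g
  have h2 := hz (k - g)
  rw [neg_sub, sub_eq_add_neg, om_add, om_self, om_neg, one_mul, ← sub_eq_add_neg] at h2
  rw [h2] at h1
  have h3 := om_ne h k g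
  field_simp at h1
  linear_combination -h1

theorem zz_zero (h : Cov d x U) (hz : ∀ g, zz x Y g = -(om h k g * zz x Y (-g))) :
    zz x Y 0 = 0 := by
  have h1 := hz 0
  rw [om_zero, neg_zero, one_mul] at h1
  linear_combination h1 / 2

theorem zz_iff (h : Cov d x U) (g : Γ) : zz x Y g = 0 ↔ inner ℂ (x g) Y = 0 := by
  unfold zz
  rw [mul_eq_zero]
  exact ⟨fun h1 => h1.resolve_left (h.etf.ne_zero _ _), Or.inr⟩

/-- the absolute values are invariant -/
theorem abs_inv (h : Cov d x U) (hz : ∀ g, zz x Y g = -(om h k g * zz x Y (-g))) (g : Γ) :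
    ‖(inner ℂ (x (g - k)) Y : ℂ)‖ = ‖(inner ℂ (x g) Y : ℂ)‖ := by
  have h1 : ‖zz x Y (g - k)‖ = ‖zz x Y g‖ := by
    rw [trans h hz, norm_mul, om_norm, one_mul]
  by_cases h0 : zz x Y g = 0
  · have h2 : zz x Y (g - k) = 0 := by
      rw [← norm_eq_zero, h1, h0, norm_zero]
    rw [(zz_iff h _).1 h0, (zz_iff h _).1 h2]
  · have hg : g ≠ 0 := by
      rintro rfl
      exact h0 (zz_zero h hz)
    have hgk : g - k ≠ 0 := by
      intro h2
      apply h0
      rw [← norm_eq_zero, ← h1, h2, zz_zero h hz, norm_zero]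
    unfold zz at h1
    rw [norm_mul, norm_mul, h.etf.ang 0 _ (Ne.symm hg), h.etf.ang 0 _ (Ne.symm hgk)] at h1
    have h3 : (0 : ℝ) < 1 / Real.sqrt ((d : ℝ) + 1) := by positivity
    exact mul_left_cancel₀ h3.ne' h1

/-- vectors with the same absolute values are proportional -/
theorem prop_of_abs (h : Cov d x U) {u w : V} (hw : w ≠ 0)
    (huw : ∀ g, ‖(inner ℂ (x g) u : ℂ)‖ = ‖(inner ℂ (x g) w : ℂ)‖) : ∃ η : ℂ, w = η • u := by
  have h1 : pr u - pr w = 0 := by
    apply h.etf.op_zero h.pos h.card h.rk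
    intro g
    rw [LinearMap.sub_apply, pr_apply, pr_apply, inner_sub_right, inner_smul_right,
      inner_smul_right]
    have e1 : ∀ u : V, inner ℂ u (x g) * inner ℂ (x g) u =
        ((‖(inner ℂ (x g) u : ℂ)‖ ^ 2 : ℝ) : ℂ) := by
      intro u
      rw [← inner_conj_symm u (x g), mul_comm, Complex.mul_conj, Complex.normSq_eq_norm_sq]
    rw [e1, e1, huw, sub_self]
  have h2 := LinearMap.congr_fun h1 w
  rw [LinearMap.sub_apply, pr_apply, pr_apply, LinearMap.zero_apply, sub_eq_zero] at h2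
  have h3 : (inner ℂ w w : ℂ) ≠ 0 := inner_self_ne_zero.2 hw
  refine ⟨(inner ℂ w w)⁻¹ * inner ℂ u w, ?_⟩
  rw [mul_smul, h2, smul_smul, inv_mul_cancel₀ h3, one_smul]

/-- the vector is an eigenvector of the transformation belonging to the character -/
theorem eigen (h : Cov d x U) (hY : Y ≠ 0) (hz : ∀ g, zz x Y g = -(om h k g * zz x Y (-g))) :
    ∃ η : ℂ, (starRingEnd ℂ) η * η = 1 ∧ U k Y = η • Y := by
  have h1 : U k Y ≠ 0 := fun h0 => hY ((U k).map_eq_zero_iff.1 h0)
  obtain ⟨η, hη⟩ := prop_of_abs h (u := Y) (w := U k Y) h1 (fun g => by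
    obtain ⟨c, hc⟩ := h.ind k (g - k)
    have e0 : (Equiv.addLeft k) (g - k) = g := by simp
    rw [e0] at hc
    have hc1 := ind_norm h.etf hc
    have e1 : inner ℂ (x (g - k)) Y = (starRingEnd ℂ) c * inner ℂ (x g) (U k Y) := by
      rw [← (U k).inner_map_map, hc, inner_smul_left]
    rw [← abs_inv h hz g, e1, norm_mul, RCLike.norm_conj, hc1, one_mul])
  refine ⟨η, ?_, hη⟩
  apply ccn
  have h2 := congrArg norm hη
  rw [(U k).norm_map, norm_smul] at h2
  have h3 : ‖Y‖ ≠ 0 := norm_ne_zero_iff.2 hY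
  have h4 : (‖η‖ - 1) * ‖Y‖ = 0 := by linear_combination -h2
  exact sub_eq_zero.1 ((mul_eq_zero.1 h4).resolve_right h3)

/-- the first relation -/
theorem rel1 (h : Cov d x U) (hz : ∀ g, zz x Y g = -(om h k g * zz x Y (-g))) {η : ℂ}
    (hη : (starRingEnd ℂ) η * η = 1) (hηY : U k Y = η • Y) {g : Γ} (hg : inner ℂ (x g) Y ≠ 0)
    {W : V ≃ₗᵢ[ℂ] V} (hW : Ind x W (Equiv.addLeft g)) :
    η * inner ℂ (x 0) (W ((U k)⁻¹ (x 0))) = om h k g ^ 2 * inner ℂ (x 0) (W (x 0)) := by
  obtain ⟨c, hc⟩ := hW 0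
  have e0 : (Equiv.addLeft g) 0 = g := by simp
  rw [e0] at hc
  have hc1 := ind_norm h.etf hc
  have hc0 : c ≠ 0 := by
    rintro rfl
    simp at hc1
  obtain ⟨a, ha, hWa⟩ := h.uniq hW
  -- commutation
  have hcomm : ∀ v, W (U k v) = om h g k • U k (W v) := by
    intro v
    rw [hWa, hWa, om_spec h g k, map_smul, smul_comm]
  set s : V := W ((U k)⁻¹ (x 0)) with hs
  have h1 : W (x 0) = om h g k • U k s := by
    rw [hs, ← hcomm]
    congr 1
    exact ((U k).apply_symm_apply _).symm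
  -- the row at `g - k`
  have h2 : Ind x (W * (U k)⁻¹) (Equiv.addLeft (g - k)) := by
    have h3 := hW.mul ((h.ind k).inv h.etf)
    have e1 : (Equiv.addLeft g * (Equiv.addLeft k)⁻¹ : Equiv.Perm Γ) =
        Equiv.addLeft (g - k) := by
      rw [mul_inv_eq_iff_eq_mul, addLeft_mul, sub_add_cancel]
    rwa [e1] at h3
  obtain ⟨b, hb⟩ := h2 0
  have e2 : (Equiv.addLeft (g - k)) 0 = g - k := by simp
  rw [e2] at hb
  have h3 := zz_eq h Y hb
  have h4 : (W * (U k)⁻¹) (x 0) = s := rfl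
  rw [h4, trans h hz, zz_eq h Y hc] at h3
  have h5 : inner ℂ (W (x 0)) Y = (starRingEnd ℂ) (om h g k) * ((starRingEnd ℂ) η * inner ℂ s Y) := by
    rw [h1, inner_smul_left]
    congr 1
    have h6 : inner ℂ (U k s) (U k Y) = inner ℂ s Y := (U k).inner_map_map _ _
    rw [hηY, inner_smul_right] at h6
    rw [← h6]
    linear_combination (-inner ℂ (U k s) Y) * hη
  have h6 : inner ℂ s Y ≠ 0 := by
    intro h0
    rw [h0, mul_zero, mul_zero, hc, inner_smul_left] at h5
    rcases mul_eq_zero.1 h5 with h7 | h7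
    · exact hc0 ((map_eq_zero _).1 h7)
    · exact hg h7
  rw [h5] at h3
  have h7 : (starRingEnd ℂ) (om h g k) = om h k g := by
    rw [om_symm h g k]
    exact (eq_inv_of_mul_eq_one_left (ccn (om_norm h g k)))
  rw [h7] at h3
  have h8 : (om h k g * (inner ℂ (x 0) (W (x 0)) * (om h k g * (starRingEnd ℂ) η)) -
      inner ℂ (x 0) s) * inner ℂ s Y = 0 := by linear_combination h3
  have h9 := (mul_eq_zero.1 h8).resolve_right h6
  linear_combination (-η) * h9 + om h k g ^ 2 * inner ℂ (x 0) (W (x 0)) * hη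

/-- **The cube of the character is trivial where the row does not vanish.** -/
theorem cube (h : Cov d x U) (hz : ∀ g, zz x Y g = -(om h k g * zz x Y (-g))) {η : ℂ}
    (hη : (starRingEnd ℂ) η * η = 1) (hηY : U k Y = η • Y) {g : Γ} (hg : inner ℂ (x g) Y ≠ 0) :
    om h k g ^ 3 = 1 := by
  have hη0 : η ≠ 0 := by
    rintro rfl
    simp at hη
  have h1 := rel1 h hz hη hηY hg (h.ind g)
  have hg' : inner ℂ (x (k - g)) Y ≠ 0 := by
    intro h0
    apply hg
    rw [← zz_iff h] at h0 ⊢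
    have h2 := refl h hz g
    rw [h0] at h2
    linear_combination h2
  have h2 : Ind x (U k * (U g)⁻¹) (Equiv.addLeft (k - g)) := by
    have h3 := (h.ind k).mul ((h.ind g).inv h.etf)
    have e1 : (Equiv.addLeft k * (Equiv.addLeft g)⁻¹ : Equiv.Perm Γ) =
        Equiv.addLeft (k - g) := by
      rw [mul_inv_eq_iff_eq_mul, addLeft_mul, sub_add_cancel]
    rwa [e1] at h3
  have h3 := rel1 h hz hη hηY hg' h2
  -- the two sides
  have e1 : inner ℂ (x 0) ((U k * (U g)⁻¹) (x 0)) =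
      (starRingEnd ℂ) (inner ℂ (x 0) (U g ((U k)⁻¹ (x 0)))) := by
    rw [inner_conj_symm]
    have e2 : (U k * (U g)⁻¹) (x 0) = U k ((U g)⁻¹ (x 0)) := rfl
    rw [e2]
    have e3 : x 0 = U k ((U k)⁻¹ (x 0)) := ((U k).apply_symm_apply _).symm
    have e4 : x 0 = U g ((U g)⁻¹ (x 0)) := ((U g).apply_symm_apply _).symm
    conv_lhs => rw [e3]
    conv_rhs => rw [e4]
    rw [(U k).inner_map_map]
    have e5 : inner ℂ (U g ((U k)⁻¹ (U g ((U g)⁻¹ (x 0))))) (U g ((U g)⁻¹ (x 0))) =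
        inner ℂ ((U k)⁻¹ (U g ((U g)⁻¹ (x 0)))) ((U g)⁻¹ (x 0)) := (U g).inner_map_map _ _
    rw [e5, ← e4, ← e3]
  have e2 : (U k * (U g)⁻¹) ((U k)⁻¹ (x 0)) = (om h k g)⁻¹ • (U g)⁻¹ (x 0) := by
    have e3 := om_spec h k g ((U g)⁻¹ ((U k)⁻¹ (x 0)))
    have e4 : U g ((U g)⁻¹ ((U k)⁻¹ (x 0))) = (U k)⁻¹ (x 0) := (U g).apply_symm_apply _
    have e5 : U k ((U k)⁻¹ (x 0)) = x 0 := (U k).apply_symm_apply _
    rw [e4, e5] at e3
    have e6 : (U g)⁻¹ (U g (U k ((U g)⁻¹ ((U k)⁻¹ (x 0))))) =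
        U k ((U g)⁻¹ ((U k)⁻¹ (x 0))) := (U g).symm_apply_apply _
    have e7 : (U k * (U g)⁻¹) ((U k)⁻¹ (x 0)) = U k ((U g)⁻¹ ((U k)⁻¹ (x 0))) := rfl
    have e8 : (U g)⁻¹ (x 0) = om h k g • U k ((U g)⁻¹ ((U k)⁻¹ (x 0))) := by
      conv_lhs => rw [e3]
      rw [map_smul, e6]
    rw [e7, e8, smul_smul, inv_mul_cancel₀ (om_ne h k g), one_smul]
  have e3 : inner ℂ (x 0) ((U g)⁻¹ (x 0)) = (starRingEnd ℂ) (inner ℂ (x 0) (U g (x 0))) := by
    rw [inner_conj_symm, ← (U g).inner_map_map]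
    congr 1
    exact (U g).apply_symm_apply _
  have e4 : om h k (k - g) = (om h k g)⁻¹ := by
    rw [sub_eq_add_neg, om_add, om_self, one_mul, om_neg]
  rw [e1, e2, e4, inner_smul_right, e3] at h3
  have hC : inner ℂ (x 0) (U g (x 0)) ≠ 0 := by
    obtain ⟨c, hc⟩ := h.ind g 0
    have hc1 := ind_norm h.etf hc
    rw [hc, inner_smul_right]
    refine mul_ne_zero ?_ (h.etf.ne_zero _ _)
    rintro rfl
    simp at hc1
  set C : ℂ := inner ℂ (x 0) (U g (x 0)) with hCdef
  set S : ℂ := inner ℂ (x 0) (U g ((U k)⁻¹ (x 0))) with hS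
  set o : ℂ := om h k g with ho
  have ho0 : o ≠ 0 := om_ne h k g
  have ho1 : (starRingEnd ℂ) o * o = 1 := ccn (om_norm h k g)
  have h4 := congrArg (starRingEnd ℂ) h1
  rw [map_mul, map_mul, map_pow] at h4
  have hC' : (starRingEnd ℂ) C ≠ 0 := (map_ne_zero _).2 hC
  have h5 : η * (o * (starRingEnd ℂ) C) = (starRingEnd ℂ) S := by
    have h6 : o ^ 2 * (η * (o⁻¹ * (starRingEnd ℂ) C)) = o ^ 2 * (o⁻¹ ^ 2 * (starRingEnd ℂ) S) := by
      rw [h3]
    field_simp at h6
    linear_combination h6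
  rw [← h5] at h4
  have h6 : (o - (starRingEnd ℂ) o ^ 2) * (starRingEnd ℂ) C = 0 := by
    linear_combination h4 - o * (starRingEnd ℂ) C * hη
  have h7 := (mul_eq_zero.1 h6).resolve_right hC'
  linear_combination o ^ 2 * h7 + ((starRingEnd ℂ) o * o + 1) * ho1

end Iso

end Pool.Agent.H774.CR
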