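import Pool.Agent.H774.CR.Inv

/-!
# Characters of order three
-/

set_option autoImplicit false
set_option linter.unusedSectionVars false

open Finset

namespace Pool.Agent.H774.CR

open Pool.Agent.Y387.SF Pool.Agent.Y387.MD Pool.Agent.H774.IS

variable {V : Type*} [NormedAddCommGroup V] [InnerProductSpace ℂ V] [FiniteDimensional ℂ V]
  {Γ : Type*} [AddCommGroup Γ] [Fintype Γ] {x : Γ → V} {d : ℕ} {U : Γ → V ≃ₗᵢ[ℂ] V}

/-- the orthogonality relation -/
theorem schur (h : Cov d x U) (a b : V) :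
    ∑ g, ‖(inner ℂ a (U g b) : ℂ)‖ ^ 2 = d * (‖a‖ ^ 2 * ‖b‖ ^ 2) := by
  classical
  have hd0 : (d : ℂ) ≠ 0 := by
    have := h.pos
    have : d ≠ 0 := by omega
    exact_mod_cast this
  obtain ⟨c, hc⟩ := commutant h.etf h.pos h.card h.rk (∑ g, pr (U g b)) 0 (fun k => by
      obtain ⟨c, hc⟩ := h.ind k 0
      refine ⟨U k, c, ?_, fun v => ?_⟩
      · rw [hc]
        simp
      · rw [LinearMap.sum_apply, LinearMap.sum_apply, map_sum]
        symm
        refine Fintype.sum_equiv (Equiv.addLeft k) _ _ fun g => ?_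
        obtain ⟨a, ha, hv⟩ := h.add k g
        rw [Equiv.coe_addLeft]
        simp only
        rw [hv, pr_apply, pr_apply, inner_smul_left, (U k).inner_map_map, map_smul, smul_smul]
        congr 1
        linear_combination (-inner ℂ (U g b) v) * ccn ha)
  have hbb : (inner ℂ b b : ℂ) = ((‖b‖ ^ 2 : ℝ) : ℂ) := by
    rw [inner_self_eq_norm_sq_to_K]
    push_cast
    rfl
  have haa : (inner ℂ a a : ℂ) = ((‖a‖ ^ 2 : ℝ) : ℂ) := by
    rw [inner_self_eq_norm_sq_to_K]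
    push_cast
    rfl
  have e1 : ∑ j, inner ℂ (x j) ((∑ g, pr (U g b)) (x j)) = (d : ℂ) ^ 2 * c := by
    simp_rw [hc, inner_smul_right, h.etf.inner_self]
    rw [Finset.sum_const, Finset.card_univ, h.card, nsmul_eq_mul]
    push_cast
    ring
  have e2 : ∑ j, inner ℂ (x j) ((∑ g, pr (U g b)) (x j)) = (d : ℂ) ^ 2 * (d * inner ℂ b b) := by
    simp_rw [LinearMap.sum_apply, pr_apply, inner_sum, inner_smul_right]
    rw [Finset.sum_comm]
    have e4 : ∀ g, ∑ j, inner ℂ (U g b) (x j) * inner ℂ (x j) (U g b) = d * inner ℂ b b := by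
      intro g
      rw [frame_inner h.etf h.pos h.card h.rk, (U g).inner_map_map]
    simp_rw [e4]
    rw [Finset.sum_const, Finset.card_univ, h.card, nsmul_eq_mul]
    push_cast
    ring
  have e5 : c = d * inner ℂ b b := mul_left_cancel₀ (pow_ne_zero 2 hd0) (e1.symm.trans e2)
  have e6 := congrArg (fun v => inner ℂ a v) (hc a)
  simp only [LinearMap.sum_apply, pr_apply, inner_sum, inner_smul_right] at e6
  have e7 : ∀ g, inner ℂ (U g b) a * inner ℂ a (U g b) =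
      ((‖(inner ℂ a (U g b) : ℂ)‖ ^ 2 : ℝ) : ℂ) := by
    intro g
    rw [← inner_conj_symm (U g b) a, mul_comm, Complex.mul_conj, Complex.normSq_eq_norm_sq]
  simp_rw [e7] at e6
  rw [e5, hbb, haa] at e6
  have e8 : ((∑ g, ‖(inner ℂ a (U g b) : ℂ)‖ ^ 2 : ℝ) : ℂ) =
      ((d * (‖a‖ ^ 2 * ‖b‖ ^ 2) : ℝ) : ℂ) := by
    rw [Complex.ofReal_sum, e6]
    push_cast
    ring
  exact_mod_cast e8

/-- the projections of the first vector -/
noncomputable def uu3 (x : Γ → V) (T : V →ₗ[ℂ] V) (r : ℂ) : V :=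
  (1 / 3 : ℂ) • (x 0 + r ^ 2 • T (x 0) + r • T (T (x 0)))

variable {T : V →ₗ[ℂ] V}

theorem T_uu3 (hT3 : ∀ v, T (T (T v)) = v) {r : ℂ} (hr : r ^ 3 = 1) :
    T (uu3 x T r) = r • uu3 x T r := by
  unfold uu3
  rw [map_smul, map_add, map_add, map_smul, map_smul, hT3, smul_comm r]
  congr 1
  rw [smul_add, smul_add, smul_smul, smul_smul, ← pow_succ', hr, one_smul, ← sq]
  abel

theorem uu3_eig (hTi : ∀ v w, inner ℂ (T v) (T w) = inner ℂ v w) {r : ℂ} (hr : r ^ 3 = 1)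
    (hr1 : (starRingEnd ℂ) r * r = 1) {w : V} (hw : T w = r • w) :
    inner ℂ (uu3 x T r) w = inner ℂ (x 0) w := by
  have h1 : w = r ^ 2 • T w := by
    rw [hw, smul_smul, ← pow_succ, hr, one_smul]
  have h2 : ∀ v, inner ℂ (T v) w = r ^ 2 * inner ℂ v w := by
    intro v
    conv_lhs => rw [h1]
    rw [inner_smul_right, hTi]
  unfold uu3
  rw [inner_smul_left, inner_add_left, inner_add_left, inner_smul_left, inner_smul_left, h2, h2, h2]
  simp only [map_div₀, map_one, map_ofNat, map_pow]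
  linear_combination (1 / 3 * ((starRingEnd ℂ) r * r + 1) * inner ℂ (x 0) w +
    1 / 3 * (r ^ 3) * inner ℂ (x 0) w) * hr1 + 1 / 3 * inner ℂ (x 0) w * hr

/-- **A nontrivial character of order three occurs only in dimension three.** -/
theorem three (h : Cov d x U) {Y : V} {k : Γ} {η : ℂ} (hY : Y ≠ 0) (hk : k ≠ 0)
    (h3 : ∀ g, om h k g ^ 3 = 1) (hz : ∀ g, zz x Y g = -(om h k g * zz x Y (-g)))
    (hη : (starRingEnd ℂ) η * η = 1) (hηY : U k Y = η • Y) : d ≤ 3 := by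
  classical
  have hη0 : η ≠ 0 := by
    rintro rfl
    simp at hη
  have h3k : k + k + k = 0 := by
    apply om_nondeg h
    intro g
    rw [om_add, om_add, om_symm h k g, ← mul_inv, ← mul_inv, ← pow_two, ← pow_succ, h3, inv_one]
  -- the third power
  have hU3 : ∀ v, U k (U k (U k v)) = η ^ 3 • v := by
    have h4 : Ind x (U k * U k * U k) (Equiv.addLeft k * Equiv.addLeft k * Equiv.addLeft k) :=
      ((h.ind k).mul (h.ind k)).mul (h.ind k)
    have e1 : (Equiv.addLeft k * Equiv.addLeft k * Equiv.addLeft k : Equiv.Perm Γ) = 1 := by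
      rw [addLeft_mul, addLeft_mul, h3k]
      exact Equiv.ext fun a => zero_add a
    rw [e1] at h4
    obtain ⟨c, _, hc⟩ := fix_all h.etf h.pos h.card h.rk h4
    have hc' : ∀ v, U k (U k (U k v)) = c • v := hc
    have h5 := hc' Y
    rw [hηY, map_smul, hηY, map_smul, map_smul, hηY, smul_smul, smul_smul] at h5
    have h6 : η ^ 3 = c := by
      have h7 := smul_left_injective ℂ hY h5
      rw [← h7]
      ring
    intro v
    rw [hc', h6]
  set T : V →ₗ[ℂ] V := η⁻¹ • ((U k).toLinearEquiv : V →ₗ[ℂ] V) with hTdef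
  have hT : ∀ v, T v = η⁻¹ • U k v := fun v => rfl
  have hηc : (starRingEnd ℂ) η = η⁻¹ := eq_inv_of_mul_eq_one_left hη
  have hT3 : ∀ v, T (T (T v)) = v := by
    intro v
    rw [hT, hT, hT, map_smul, map_smul, map_smul, hU3, smul_smul, smul_smul, smul_smul]
    have e1 : η⁻¹ * η⁻¹ * η⁻¹ * η ^ 3 = 1 := by
      field_simp
    rw [e1, one_smul]
  have hTi : ∀ v w, inner ℂ (T v) (T w) = inner ℂ v w := by
    intro v w
    rw [hT, hT, inner_smul_left, inner_smul_right, (U k).inner_map_map, map_inv₀, hηc, inv_inv]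
    field_simp
  have hTU : ∀ g v, T (U g v) = om h k g • U g (T v) := by
    intro g v
    rw [hT, hT, om_spec h k g, map_smul, smul_comm]
  -- the set where the row does not vanish
  set Q : Finset Γ := univ.filter fun g => inner ℂ (x g) Y ≠ 0 with hQ
  have hQm : ∀ g, g ∈ Q ↔ inner ℂ (x g) Y ≠ 0 := by
    intro g
    rw [hQ, Finset.mem_filter]
    simp
  have hcard := half' h hY (K := Q) fun g hg => (hQm g).2 hg
  have hQ0 : ∀ g ∈ Q, g ≠ 0 := by
    rintro g hg rfl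
    exact (hQm _).1 hg ((zz_iff h 0).1 (zz_zero h hz))
  have hQk : ∀ g, g ∈ Q → g + k ∈ Q := by
    intro g hg
    rw [hQm] at hg ⊢
    have h1 := abs_inv h hz (g + k)
    rw [add_sub_cancel_right] at h1
    rw [← norm_ne_zero_iff] at hg ⊢
    rwa [← h1]
  have hstep : ∀ g ∈ Q, ∀ W : V ≃ₗᵢ[ℂ] V, Ind x W (Equiv.addLeft g) →
      inner ℂ (x 0) (W (T (x 0))) = om h k g * inner ℂ (x 0) (W (x 0)) := by
    intro g hg W hW
    have h1 : Ind x (W * U k) (Equiv.addLeft (g + k)) := by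
      rw [← addLeft_mul]
      exact hW.mul (h.ind k)
    have h2 := rel1 h hz hη hηY ((hQm _).1 (hQk g hg)) h1
    have e1 : (W * U k) ((U k)⁻¹ (x 0)) = W (x 0) := by
      change W (U k ((U k)⁻¹ (x 0))) = W (x 0)
      congr 1
      exact (U k).apply_symm_apply _
    have e2 : (W * U k) (x 0) = W (U k (x 0)) := rfl
    rw [e1, e2, om_add, om_self, mul_one] at h2
    rw [hT, map_smul, inner_smul_right]
    have h4 := h3 g
    have h5 : om h k g * (η * inner ℂ (x 0) (W (x 0))) =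
        inner ℂ (x 0) (W (U k (x 0))) := by
      rw [h2]
      linear_combination inner ℂ (x 0) (W (U k (x 0))) * h4
    rw [← h5]
    field_simp
  have hst2 : ∀ g ∈ Q, inner ℂ (x 0) (U g (T (T (x 0)))) =
      om h k g ^ 2 * inner ℂ (x 0) (U g (x 0)) := by
    intro g hg
    have h1 : Ind x (U g * U k) (Equiv.addLeft (g + k)) := by
      rw [← addLeft_mul]
      exact (h.ind g).mul (h.ind k)
    have h2 := hstep _ (hQk g hg) _ h1
    have e1 : ∀ v, (U g * U k) v = U g (U k v) := fun v => rfl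
    rw [e1, e1, om_add, om_self, mul_one] at h2
    have h4 := hstep g hg _ (h.ind g)
    have e2 : ∀ v, U k v = η • T v := by
      intro v
      rw [hT, smul_smul, mul_inv_cancel₀ hη0, one_smul]
    rw [e2, e2, map_smul, map_smul, inner_smul_right, inner_smul_right, h4] at h2
    have h5 : η * (inner ℂ (x 0) (U g (T (T (x 0)))) -
        om h k g ^ 2 * inner ℂ (x 0) (U g (x 0))) = 0 := by linear_combination h2
    exact sub_eq_zero.1 ((mul_eq_zero.1 h5).resolve_left hη0)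
  have hr1 : ∀ {r : ℂ}, r ^ 3 = 1 → (starRingEnd ℂ) r * r = 1 := by
    intro r hr
    apply ccn
    have h1 := congrArg norm hr
    rw [norm_pow, norm_one] at h1
    exact (pow_eq_one_iff_of_nonneg (norm_nonneg _) three_ne_zero).1 h1
  -- the diagonal entries
  have hdiag : ∀ g ∈ Q, inner ℂ (uu3 x T (om h k g ^ 2)) (U g (uu3 x T (om h k g))) =
      inner ℂ (x 0) (U g (x 0)) := by
    intro g hg
    have hr := h3 g
    set r := om h k g with hrdef
    have hr2 : (r ^ 2) ^ 3 = 1 := by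
      rw [← pow_mul, mul_comm, pow_mul, hr, one_pow]
    rw [uu3_eig hTi hr2 (hr1 hr2)]
    · have e1 : U g (uu3 x T r) = (1 / 3 : ℂ) • (U g (x 0) + r ^ 2 • U g (T (x 0)) +
          r • U g (T (T (x 0)))) := by
        unfold uu3
        rw [map_smul, map_add, map_add, map_smul, map_smul]
      rw [e1, inner_smul_right, inner_add_right, inner_add_right, inner_smul_right,
        inner_smul_right, hstep g hg _ (h.ind g), hst2 g hg, ← hrdef]
      linear_combination (2 / 3 * inner ℂ (x 0) (U g (x 0))) * hr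
    · rw [hTU, T_uu3 hT3 hr, map_smul, smul_smul, ← hrdef, sq]
  have hnorm : ∀ g ∈ Q, ‖(inner ℂ (uu3 x T (om h k g ^ 2)) (U g (uu3 x T (om h k g))) : ℂ)‖ ^ 2 =
      ((d : ℝ) + 1)⁻¹ := by
    intro g hg
    obtain ⟨c, hc⟩ := h.ind g 0
    have e0 : (Equiv.addLeft g) 0 = g := by simp
    rw [e0] at hc
    rw [hdiag g hg, hc, inner_smul_right, norm_mul, ind_norm h.etf hc, one_mul,
      h.etf.ang 0 g (Ne.symm (hQ0 g hg)), div_pow, one_pow, Real.sq_sqrt (by positivity), one_div]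
  -- roots of unity
  obtain ⟨ζ, hζ⟩ : ∃ ζ : ℂ, IsPrimitiveRoot ζ 3 := ⟨_, Complex.isPrimitiveRoot_exp 3 three_ne_zero⟩
  have hζ3 : ζ ^ 3 = 1 := hζ.pow_eq_one
  have hζs : 1 + ζ + ζ ^ 2 = 0 := by
    have h1 : (ζ - 1) * (1 + ζ + ζ ^ 2) = 0 := by linear_combination hζ3
    exact (mul_eq_zero.1 h1).resolve_left (sub_ne_zero.2 (hζ.ne_one (by norm_num)))
  set P : ℂ → ℝ := fun r => ‖uu3 x T r‖ ^ 2 with hP
  have hsum : (Q.card : ℝ) * ((d : ℝ) + 1)⁻¹ ≤
      d * (P 1 * P 1) + d * (P (ζ ^ 2) * P ζ) + d * (P ζ * P (ζ ^ 2)) := by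
    have e1 : (Q.card : ℝ) * ((d : ℝ) + 1)⁻¹ = ∑ g ∈ Q,
        ‖(inner ℂ (uu3 x T (om h k g ^ 2)) (U g (uu3 x T (om h k g))) : ℂ)‖ ^ 2 := by
      rw [Finset.sum_congr rfl hnorm, Finset.sum_const, nsmul_eq_mul]
    have e2 := schur h (uu3 x T 1) (uu3 x T 1)
    have e3 := schur h (uu3 x T (ζ ^ 2)) (uu3 x T ζ)
    have e4 := schur h (uu3 x T ζ) (uu3 x T (ζ ^ 2))
    rw [e1, hP]
    simp only
    rw [← e2, ← e3, ← e4, ← Finset.sum_add_distrib, ← Finset.sum_add_distrib]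
    refine le_trans ?_ (Finset.sum_le_sum_of_subset_of_nonneg (Finset.subset_univ Q)
      fun g _ _ => by positivity)
    refine Finset.sum_le_sum fun g _ => ?_
    obtain ⟨n, hn, hng⟩ := hζ.eq_pow_of_pow_eq_one (h3 g)
    rw [← hng]
    have h5 : ζ ^ 4 = ζ := by linear_combination ζ * hζ3
    interval_cases n
    · simp only [pow_zero, one_pow]
      have := sq_nonneg ‖(inner ℂ (uu3 x T (ζ ^ 2)) (U g (uu3 x T ζ)) : ℂ)‖
      have := sq_nonneg ‖(inner ℂ (uu3 x T ζ) (U g (uu3 x T (ζ ^ 2))) : ℂ)‖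
      linarith
    · rw [pow_one]
      have := sq_nonneg ‖(inner ℂ (uu3 x T 1) (U g (uu3 x T 1)) : ℂ)‖
      have := sq_nonneg ‖(inner ℂ (uu3 x T ζ) (U g (uu3 x T (ζ ^ 2))) : ℂ)‖
      linarith
    · rw [← pow_mul, h5]
      have := sq_nonneg ‖(inner ℂ (uu3 x T 1) (U g (uu3 x T 1)) : ℂ)‖
      have := sq_nonneg ‖(inner ℂ (uu3 x T (ζ ^ 2)) (U g (uu3 x T ζ)) : ℂ)‖
      linarith
  -- the norms
  set τ : ℂ := inner ℂ (x 0) (T (x 0)) with hτ
  have hτ2 : inner ℂ (x 0) (T (T (x 0))) = (starRingEnd ℂ) τ := by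
    rw [← hTi, hT3, hτ, inner_conj_symm]
  have hττ : τ * (starRingEnd ℂ) τ = ((((d : ℝ) + 1)⁻¹ : ℝ) : ℂ) := by
    obtain ⟨c, hc⟩ := h.ind k 0
    have e0 : (Equiv.addLeft k) 0 = k := by simp
    rw [e0] at hc
    rw [Complex.mul_conj, Complex.normSq_eq_norm_sq, hτ, hT, hc, inner_smul_right,
      inner_smul_right, norm_mul, norm_mul, ind_norm h.etf hc, norm_inv,
      h.etf.ang 0 k (Ne.symm hk)]
    have h1 : ‖η‖ = 1 := by
      have h2 := hη
      rw [mul_comm, Complex.mul_conj, Complex.normSq_eq_norm_sq] at h2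
      have h3 : ‖η‖ ^ 2 = 1 := by exact_mod_cast h2
      exact (pow_eq_one_iff_of_nonneg (norm_nonneg _) two_ne_zero).1 h3
    rw [h1, inv_one, one_mul, one_mul, div_pow, one_pow, Real.sq_sqrt (by positivity), one_div]
  have hPr : ∀ r : ℂ, r ^ 3 = 1 → ((P r : ℝ) : ℂ) =
      1 / 3 * (1 + r ^ 2 * τ + r * (starRingEnd ℂ) τ) := by
    intro r hr
    have e1 : ((P r : ℝ) : ℂ) = inner ℂ (uu3 x T r) (uu3 x T r) := by
      rw [inner_self_eq_norm_sq_to_K, hP]
      push_cast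
      rfl
    rw [e1, uu3_eig hTi hr (hr1 hr) (T_uu3 hT3 hr)]
    unfold uu3
    rw [inner_smul_right, inner_add_right, inner_add_right, inner_smul_right, inner_smul_right,
      h.etf.inner_self, hτ2]
  have hPs : P 1 ^ 2 + P ζ ^ 2 + P (ζ ^ 2) ^ 2 = 1 / 3 * (1 + 2 * ((d : ℝ) + 1)⁻¹) := by
    have e1 := hPr 1 (one_pow 3)
    have e2 := hPr ζ hζ3
    have e3 := hPr (ζ ^ 2) (by rw [← pow_mul, mul_comm, pow_mul, hζ3, one_pow])
    have key : ∀ p0 p1 p2 : ℝ, (p0 : ℂ) = 1 / 3 * (1 + 1 ^ 2 * τ + 1 * (starRingEnd ℂ) τ) →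
        (p1 : ℂ) = 1 / 3 * (1 + ζ ^ 2 * τ + ζ * (starRingEnd ℂ) τ) →
        (p2 : ℂ) = 1 / 3 * (1 + (ζ ^ 2) ^ 2 * τ + ζ ^ 2 * (starRingEnd ℂ) τ) →
        ((p0 ^ 2 + p1 ^ 2 + p2 ^ 2 : ℝ) : ℂ) =
          ((1 / 3 * (1 + 2 * ((d : ℝ) + 1)⁻¹) : ℝ) : ℂ) := by
      intro p0 p1 p2 h0 h1 h2
      have e5 : ((1 / 3 * (1 + 2 * ((d : ℝ) + 1)⁻¹) : ℝ) : ℂ) =
          1 / 3 * (1 + 2 * ((((d : ℝ) + 1)⁻¹ : ℝ) : ℂ)) := by
        push_cast
        ring
      have h4 : (ζ ^ 2) ^ 2 = ζ := by linear_combination ζ * hζ3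
      rw [h4] at h2
      rw [e5, ← hττ, Complex.ofReal_add, Complex.ofReal_add, Complex.ofReal_pow,
        Complex.ofReal_pow, Complex.ofReal_pow, h0, h1, h2]
      linear_combination (1 / 9 * (2 * (τ + (starRingEnd ℂ) τ) + τ ^ 2 +
        (starRingEnd ℂ) τ ^ 2)) * hζs + (1 / 9 * ((τ ^ 2 + (starRingEnd ℂ) τ ^ 2) * ζ +
        4 * τ * (starRingEnd ℂ) τ)) * hζ3
    have e4 := key (P 1) (P ζ) (P (ζ ^ 2)) e1 e2 e3
    exact_mod_cast e4
  have hP12 : P (ζ ^ 2) * P ζ + P ζ * P (ζ ^ 2) ≤ P ζ ^ 2 + P (ζ ^ 2) ^ 2 := by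
    nlinarith [sq_nonneg (P ζ - P (ζ ^ 2))]
  have hd : (0 : ℝ) < d := by exact_mod_cast h.pos
  have hfin : (Q.card : ℝ) * ((d : ℝ) + 1)⁻¹ ≤ d * (1 / 3 * (1 + 2 * ((d : ℝ) + 1)⁻¹)) := by
    rw [← hPs]
    refine hsum.trans ?_
    nlinarith
  have hd1 : (0 : ℝ) < (d : ℝ) + 1 := by positivity
  have hfin2 : (Q.card : ℝ) ≤ d * (1 / 3 * ((d : ℝ) + 1 + 2)) := by
    have h1 := mul_le_mul_of_nonneg_right hfin hd1.le
    have e1 : (Q.card : ℝ) * ((d : ℝ) + 1)⁻¹ * ((d : ℝ) + 1) = Q.card := by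
      field_simp
    have e2 : (d : ℝ) * (1 / 3 * (1 + 2 * ((d : ℝ) + 1)⁻¹)) * ((d : ℝ) + 1) =
        d * (1 / 3 * ((d : ℝ) + 1 + 2)) := by
      field_simp
    rwa [e1, e2] at h1
  have h5 : (d : ℝ) * (d + 1) ≤ 2 * (d * (1 / 3 * ((d : ℝ) + 1 + 2))) := by linarith
  have h6 : (d : ℝ) * ((d : ℝ) + 1) ≤ d * (2 * (1 / 3 * ((d : ℝ) + 1 + 2))) := by linarith
  have h7 := le_of_mul_le_mul_left h6 hd
  have h8 : (d : ℝ) ≤ 3 := by linarith
  exact_mod_cast h8

end Pool.Agent.H774.CR
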