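import Pool.Agent.H774.CR.Near
import Mathlib.NumberTheory.LegendreSymbol.AddCharacter

/-!
# Orbits of the Weyl-Heisenberg group
-/

set_option autoImplicit false

open Finset

namespace Pool.Agent.H774.CR

variable (d : ℕ) [NeZero d]

/-- the displaced vectors -/
noncomputable def disp (ψ : ZMod d → ℂ) (g : ZMod d × ZMod d) : EuclideanSpace ℂ (ZMod d) :=
  WithLp.toLp 2 (fun j => ZMod.stdAddChar (g.2 * j) * ψ (j - g.1))

/-- the displacement operators -/
noncomputable def dop (g : ZMod d × ZMod d) :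
    EuclideanSpace ℂ (ZMod d) ≃ₗ[ℂ] EuclideanSpace ℂ (ZMod d) where
  toFun v := WithLp.toLp 2 (fun j => ZMod.stdAddChar (g.2 * j) * v (j - g.1))
  invFun w := WithLp.toLp 2 (fun j => ZMod.stdAddChar (-(g.2 * (j + g.1))) * w (j + g.1))
  map_add' u v := by
    ext j
    simp only [PiLp.add_apply]
    ring
  map_smul' s u := by
    ext j
    simp only [PiLp.smul_apply, RingHom.id_apply, smul_eq_mul]
    ring
  left_inv v := by
    ext j
    simp only
    rw [← mul_assoc, ← AddChar.map_add_eq_mul, neg_add_cancel, AddChar.map_zero_eq_one, one_mul,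
      add_sub_cancel_right]
  right_inv w := by
    ext j
    simp only
    rw [sub_add_cancel, ← mul_assoc, ← AddChar.map_add_eq_mul, add_neg_cancel,
      AddChar.map_zero_eq_one, one_mul]

theorem dop_apply (g : ZMod d × ZMod d) (v : EuclideanSpace ℂ (ZMod d)) (j : ZMod d) :
    dop d g v j = ZMod.stdAddChar (g.2 * j) * v (j - g.1) := rfl

theorem dop_norm (g : ZMod d × ZMod d) (v : EuclideanSpace ℂ (ZMod d)) : ‖dop d g v‖ = ‖v‖ := by
  rw [EuclideanSpace.norm_eq, EuclideanSpace.norm_eq]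
  congr 1
  simp_rw [dop_apply, norm_mul, AddChar.norm_apply, one_mul]
  exact Fintype.sum_equiv (Equiv.subRight g.1) _ _ fun j => rfl

theorem disp_sym (ψ : ZMod d → ℂ) (g : ZMod d × ZMod d) :
    ∃ U : EuclideanSpace ℂ (ZMod d) ≃ₗᵢ[ℂ] EuclideanSpace ℂ (ZMod d),
      ∀ h, ∃ c : ℂ, U (disp d ψ h) = c • disp d ψ (g + h) := by
  refine ⟨⟨dop d g, dop_norm d g⟩, fun h => ⟨ZMod.stdAddChar (-(h.2 * g.1)), ?_⟩⟩
  ext j
  change dop d g (disp d ψ h) j = _
  rw [dop_apply, PiLp.smul_apply, smul_eq_mul]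
  change ZMod.stdAddChar (g.2 * j) * (ZMod.stdAddChar (h.2 * (j - g.1)) * ψ (j - g.1 - h.1)) =
    ZMod.stdAddChar (-(h.2 * g.1)) * (ZMod.stdAddChar ((g + h).2 * j) * ψ (j - (g + h).1))
  rw [← mul_assoc, ← mul_assoc, ← AddChar.map_add_eq_mul, ← AddChar.map_add_eq_mul]
  have e1 : g.2 * j + h.2 * (j - g.1) = -(h.2 * g.1) + (g + h).2 * j := by
    rw [Prod.snd_add]
    ring
  have e2 : j - g.1 - h.1 = j - (g + h).1 := by
    rw [Prod.fst_add]
    ring
  rw [e1, e2]

end Pool.Agent.H774.CR
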